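import Pool.Agent.Results.MP_0a5adf_nt.JointLaw
import Pool.Agent.Q138.PS.UD

/-!
# Maximum excursions of the numbers `⌊α P(n)⌋`

Let `q ≥ 2`. Outside a set of real numbers of Hausdorff dimension at most `q / (q + 1 / (q 2 ^ (q - 1)))` (that is
`8 / 9` for `q = 2`) every `α > 0` has the following property: for the integral polynomials `P` of degree `q` the maximum
excursions of the numbers `k = ⌊α P(n)⌋`, divided by `k`, have the same limit law as those of all integers, jointly with the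
total stopping times, uniformly in `P`.
-/

set_option autoImplicit false

namespace Pool.Agent.Results.MP_0a5adf_nt.ExcursionsAlongRealMultiples

open Finset Filter Topology
open Pool.Agent.Q138.PS
open Pool.Agent.Results.MP_0a5adf_nt.JointLaw (T ExcursionLE IsTotalStoppingTime odds safeWords bound Phi)

/-- the trajectory of `n` reaches `1` -/
def Reach (n : ℕ) : Prop := ∃ k, T^[k] n = 1

/-- the maximum excursion of `n` is at most `lam * n`, and `n` reaches `1` for the first time at a time `k ≤ bound x n` which is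
`≡ a` modulo `m`, with a number of odd terms before that is `≡ b` modulo `m` -/
def Level (lam : ℝ) (m : ℕ) (a b : ℤ) (x : ℝ) (n : ℕ) : Prop :=
  ExcursionLE n (lam * n) ∧ ∃ k : ℕ, (k : ℝ) ≤ bound x n ∧
    IsTotalStoppingTime n k ∧ (k : ℤ) ≡ a [ZMOD m] ∧ (odds k n : ℤ) ≡ b [ZMOD m]

theorem bound_mono (n : ℕ) {x y : ℝ} (h : x ≤ y) : bound x n ≤ bound y n := by
  unfold bound
  have h3 : 0 ≤ Real.log 3 := Real.log_nonneg (by norm_num)
  have : 0 ≤ Real.log 3 * Real.sqrt (2 * Real.log n / Real.log (4 / 3) ^ 3) := by positivity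
  nlinarith

theorem phi_cont : Continuous Phi := by
  have : Phi = Pool.Agent.H499R2.ND.Phi := by
    funext x
    unfold Phi
    rw [← Pool.Agent.H499R2.ND.phi_cdf]
  rw [this]
  exact Pool.Agent.H499R2.ND.Phi_continuous

/-- **Theorem.** Let `δ > 0` be the natural density of the integers which reach `1` (`δ = 1` if and only if all do), and for
`lam ≥ 1` let `p(lam) ≥ 1 - 1 / lam` be the limit of the proportion of safe words. For each `q ≥ 2` there is a set `E` of
Hausdorff dimension at most `q / (q + 1 / (q 2 ^ (q - 1)))` such that for each `α > 0` outside `E`: the proportion of the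
`n ≤ N` for which `⌊α P(n)⌋` reaches `1` tends to `δ`, and for all rational `lam ≥ 1`, all `m ≥ 1`, `a`, `b` and every real `x`
the proportion of those for which `⌊α P(n)⌋` has the property `Level` tends to `δ p(lam) Phi(x) / m ^ 2`, uniformly in
`P ∈ ℤ[X]` of degree `q` with positive leading coefficient and coefficients of size at most `N ^ η`. -/
theorem result : ∃ (δ : ℝ) (p : ℝ → ℝ), 0 < δ ∧ δ ≤ 1 ∧ (δ = 1 ↔ ∀ n : ℕ, 1 ≤ n → Reach n) ∧
    (∀ lam : ℝ, 1 ≤ lam → 1 - 1 / lam ≤ p lam ∧ p lam ≤ 1 ∧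
      Tendsto (fun K : ℕ => ((safeWords K lam).ncard : ℝ) / 2 ^ K) atTop (𝓝 (p lam))) ∧
    ∀ q : ℕ, 2 ≤ q → ∃ E : Set ℝ, dimH E ≤ ENNReal.ofReal (q / (q + 1 / ((q : ℝ) * 2 ^ (q - 1)))) ∧
      ∀ α : ℝ, 0 < α → α ∉ E → Along q α Reach δ ∧
        ∀ (lam : ℚ) (m : ℕ) (a b : ℤ), 1 ≤ lam → 1 ≤ m → ∀ x : ℝ,
          Along q α (Level lam m a b x) (δ * p lam * Phi x / m ^ 2) := by
  obtain ⟨δ, h0, h1, h2, h3, p, h4⟩ := Pool.Agent.Results.MP_0a5adf_nt.JointLaw.result
  refine ⟨δ, p, h0, h1, h2, fun lam hlam => ⟨(h4 lam hlam).1, (h4 lam hlam).2.1, (h4 lam hlam).2.2.1⟩, fun q hq => ?_⟩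
  obtain ⟨E1, hE1, g1⟩ := along_nat q hq (fun _ : Unit => Reach) (fun _ => δ) (fun _ => dn_of h3)
  obtain ⟨E2, hE2, g2⟩ := along_real (ι := {k : ℚ × ℕ × ℤ × ℤ // 1 ≤ k.1 ∧ 1 ≤ k.2.1}) q hq
    (fun k x => Level (k.1.1 : ℝ) k.1.2.1 k.1.2.2.1 k.1.2.2.2 x)
    (fun k x => δ * p (k.1.1 : ℝ) * Phi x / ((k.1.2.1 : ℕ) : ℝ) ^ 2)
    (fun k x x' n hx hn => by
      obtain ⟨e1, t, e2, e3⟩ := hn
      exact ⟨e1, t, e2.trans (bound_mono n hx), e3⟩)
    (fun k => (phi_cont.const_mul _).div_const _)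
    (fun k x => dn_of ((h4 (k.1.1 : ℝ) (by exact_mod_cast k.2.1)).2.2.2 k.1.2.1 k.1.2.2.1 k.1.2.2.2 k.2.2 x))
  refine ⟨E1 ∪ E2, ?_, fun α hα hαE => ⟨g1 α hα (fun h => hαE (Or.inl h)) (), fun lam m a b hlam hm x => ?_⟩⟩
  · rw [dimH_union]
    exact max_le hE1 hE2
  · exact g2 α hα (fun h => hαE (Or.inr h)) ⟨(lam, m, a, b), hlam, hm⟩ x

end Pool.Agent.Results.MP_0a5adf_nt.ExcursionsAlongRealMultiples
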