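import Mathlib
import Pool.Agent.Q205.RP.Exc6
import Pool.Agent.Q205.RP.Verify2

/-!
# Maximum excursions of almost every perturbation of the `3x+1` map: an integral test

`T` is the `3x+1` function. For `ω : ℤ → {0, …, 5}` let `U ω n = T (n + ω n)` (`ω = 0` gives `T`)
and let `t(n)` be the supremum of the trajectory of `n` under `U ω`. Let the `ω n` be independent
and uniform. For every positive nondecreasing `f`, almost surely `t(n) ≤ n² f(n)` for all large `n`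
if `∑ 1 / f(2^j)` converges, and `t(n) > n² f(n)` for infinitely many `n` if it diverges. So
`t(n) / n²` is unbounded, and the growth of the record excursions is `n² (log n)^(1 + o(1))`. If the
`ω` are chosen at random among those that agree with a finite verification up to `N`, then the same
holds, and every `n ≥ 1` reaches `1`, up to a probability `exp (- exp (c √(log N)))`.
-/

set_option autoImplicit false

open MeasureTheory Finset Filter Topology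

namespace Pool.Agent.Results.MP_0a5adf_nt.IntegralTestForExcursions

/-- The `3x+1` function. -/
def T (x : ℤ) : ℤ := if x % 2 = 0 then x / 2 else (3 * x + 1) / 2

/-- The perturbed map. -/
def U (ω : ℤ → Fin 6) (x : ℤ) : ℤ := T (x + ((ω x : ℕ) : ℤ))

/-- The law of independent fair dice, with faces `0, …, 5`, one for each integer. -/
noncomputable def dice : Measure (ℤ → Fin 6) :=
  Measure.infinitePi (fun _ : ℤ => (PMF.uniformOfFintype (Fin 6)).toMeasure)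

/-- The maximum excursion of `n` is larger than `H`. -/
def Exceeds (ω : ℤ → Fin 6) (n : ℕ) (H : ℝ) : Prop :=
  ∃ k : ℕ, H < (((U ω)^[k] (n : ℤ) : ℤ) : ℝ)

/-- If `∑ 1 / f(2^j)` converges then `t(n) ≤ n² f(n)` for all large `n`; if it diverges then
`t(n) > n² f(n)` for infinitely many `n`. -/
def IntegralTest (ω : ℤ → Fin 6) (f : ℕ → ℝ) : Prop :=
  (Summable (fun j : ℕ => 1 / f (2 ^ j)) → ∃ N : ℕ, ∀ n : ℕ, N ≤ n →
    ¬ Exceeds ω n ((n : ℝ) ^ 2 * f n)) ∧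
  (¬ Summable (fun j : ℕ => 1 / f (2 ^ j)) → ∀ N : ℕ, ∃ n : ℕ, N ≤ n ∧
    Exceeds ω n ((n : ℝ) ^ 2 * f n))

/-- `t(n) / n²` is unbounded; moreover `t(n) / (n² log n)` is unbounded, and
`t(n) ≤ n² (log n)^(1+ε)` for all large `n`. -/
def Growth (ω : ℤ → Fin 6) : Prop :=
  (∀ C : ℝ, ∃ n : ℕ, 1 ≤ n ∧ Exceeds ω n (C * (n : ℝ) ^ 2)) ∧
  (∀ (C : ℝ) (N : ℕ), ∃ n : ℕ, N ≤ n ∧ Exceeds ω n (C * (n : ℝ) ^ 2 * Real.log n)) ∧
  (∀ ε : ℝ, ε > 0 → ∃ N : ℕ, ∀ n : ℕ, N ≤ n →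
    ¬ Exceeds ω n ((n : ℝ) ^ 2 * (Real.log n) ^ (1 + ε)))

/-- Every trajectory reaches `1`, and the growth of the maximum excursions is as described. -/
def Good (ω : ℤ → Fin 6) : Prop :=
  (∀ n : ℤ, 1 ≤ n → ∃ k : ℕ, (U ω)^[k] n = 1) ∧ Growth ω

theorem U_eq (ω : ℤ → Fin 6) : Q205.RP.Tn Q205.RP.G6 ω = U ω := rfl

/-- a contracting power function -/
theorem contract : ∃ N : ℕ, ∀ x : ℤ, (N : ℤ) < |x| →
    ∑ c, Q205.RP.VV (1 / 2) (Q205.RP.G6 x c) ≤ 5.82 * Q205.RP.VV (1 / 2) x := by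
  apply Q205.RP.drift6' (1 / 2) (5.82)
  have e1 : (1 / 2 : ℝ) ^ (1 / 2 : ℝ) = Real.sqrt (1 / 2) := by
    rw [Real.sqrt_eq_rpow]
  have e2 : (3 / 2 : ℝ) ^ (1 / 2 : ℝ) = Real.sqrt (3 / 2) := by
    rw [Real.sqrt_eq_rpow]
  rw [e1, e2]
  have h1 : Real.sqrt (1 / 2) < 7072 / 10000 := by
    rw [Real.sqrt_lt' (by norm_num)]
    norm_num
  have h2 : Real.sqrt (3 / 2) < 12248 / 10000 := by
    rw [Real.sqrt_lt' (by norm_num)]
    norm_num
  norm_num at h1 h2 ⊢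
  linarith

theorem test (f : ℕ → ℝ) (hf : Monotone f) (hf0 : ∀ n, 0 < f n) :
    ∀ᵐ ω ∂dice, IntegralTest ω f := by
  change ∀ᵐ ω ∂(Q205.RP.P 6), _
  filter_upwards [Q205.RP.test_ae f hf hf0] with ω hω
  refine ⟨fun hs => ?_, fun hs => ?_⟩
  · obtain ⟨N, hN⟩ := hω.1 (by simpa using hs)
    refine ⟨N, fun n hn => ?_⟩
    rintro ⟨k, hk⟩
    exact absurd (hN n hn k) (not_le.2 hk)
  · intro N
    obtain ⟨n, hn, k, hk⟩ := hω.2 (by simpa using hs) N
    exact ⟨n, hn, k, hk⟩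

theorem growth : ∀ᵐ ω ∂dice, Growth ω := by
  change ∀ᵐ ω ∂(Q205.RP.P 6), _
  filter_upwards [Q205.RP.exceed_ae, Q205.RP.bounded_ae] with ω h1 h2
  refine ⟨fun C => ?_, fun C N => h1 C N, fun ε hε => ?_⟩
  · obtain ⟨n, hn, k, hk⟩ := h1 (max C 0) 3
    refine ⟨n, by omega, k, lt_of_le_of_lt ?_ hk⟩
    have h4 : 1 ≤ Real.log n := by
      rw [Real.le_log_iff_exp_le (by positivity)]
      have h5 : Real.exp 1 < 2.7182818286 := Real.exp_one_lt_d9
      have h6 : (3 : ℝ) ≤ n := by exact_mod_cast hn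
      linarith
    have h5 : C ≤ max C 0 := le_max_left _ _
    have h6 : 0 ≤ max C 0 := le_max_right _ _
    have h7 : (0 : ℝ) ≤ (n : ℝ) ^ 2 := by positivity
    calc C * (n : ℝ) ^ 2 ≤ max C 0 * (n : ℝ) ^ 2 := mul_le_mul_of_nonneg_right h5 h7
      _ ≤ max C 0 * (n : ℝ) ^ 2 * Real.log n := le_mul_of_one_le_right (by positivity) h4
  · obtain ⟨N, hN⟩ := h2 ε hε
    refine ⟨N, fun n hn => ?_⟩
    rintro ⟨k, hk⟩
    exact absurd (hN n hn k) (not_le.2 hk)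

theorem main :
    ∃ c : ℝ, 0 < c ∧ ∃ N₀ : ℕ, ∀ N : ℕ, N₀ ≤ N → ∀ (D : Finset ℤ) (g : ℤ → Fin 6),
    (∀ n : ℤ, 1 ≤ n → n ≤ N → n ∈ D) → (∀ n ∈ D, U g n ∈ D) →
    (∀ n ∈ D, ∃ k : ℕ, (U g)^[k] n = 1) →
    ∀ f : ℕ → ℝ, Monotone f → (∀ n, 0 < f n) →
    dice {ω | (∀ n ∈ D, ω n = g n) ∧ ¬ (Good ω ∧ IntegralTest ω f)} ≤
      ENNReal.ofReal (Real.exp (-Real.exp (c * Real.sqrt (Real.log N)))) *
        dice {ω | ∀ n ∈ D, ω n = g n} := by
  obtain ⟨N₁, hN₁⟩ := contract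
  obtain ⟨c, hc, N₀, h⟩ := Q205.RP.verify Q205.RP.G6 (Q205.RP.VV (1 / 2)) 5.82
    (Q205.RP.VV_ge (by norm_num)) (by norm_num) (by norm_num)
    N₁ hN₁ (p := 2) (q := 3) (E := 1) (R := 32) (by norm_num) (by norm_num) (by norm_num)
    (by norm_num) Q205.RP.rec_G6
  refine ⟨c, hc, N₀, fun N hN D g hD1 hD2 hD3 f hf hf0 => ?_⟩
  have h1 := h N hN D g {z | 1 ≤ z} (by
    intro z hz a
    have ha : (0 : ℤ) ≤ ((a : ℕ) : ℤ) := by positivity
    simp only [Set.mem_ofPred_eq] at hz ⊢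
    unfold Q205.RP.G6 Q205.RP.tab
    split_ifs <;> omega) (by
    intro z hz hzN
    simp only [Set.mem_ofPred_eq] at hz
    rw [abs_of_nonneg (by omega)] at hzN
    exact hD1 z hz hzN)
  have hae := growth.and (test f hf hf0)
  rw [ae_iff] at hae
  have hcover : {ω | (∀ n ∈ D, ω n = g n) ∧ ¬ (Good ω ∧ IntegralTest ω f)} ⊆
      {ω | ¬ (Growth ω ∧ IntegralTest ω f)} ∪
      {ω | (∃ x ∈ {z : ℤ | 1 ≤ z}, ∀ j, (Q205.RP.Tn Q205.RP.G6 ω)^[j] x ∉ D) ∧
        ∀ s ∈ D, ω s = g s} := by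
    rintro ω ⟨hω, hbad⟩
    by_cases ha : Growth ω ∧ IntegralTest ω f
    swap
    · exact Or.inl ha
    right
    refine ⟨?_, hω⟩
    by_contra hcon
    push Not at hcon
    apply hbad
    have hreach : ∀ n : ℤ, 1 ≤ n → ∃ k : ℕ, (U ω)^[k] n = 1 := by
      intro n hn
      obtain ⟨j, hj⟩ := hcon n hn
      rw [U_eq] at hj
      obtain ⟨k, hk⟩ := hD3 _ hj
      have hit := Q205.RP.iter_eq Q205.RP.G6 ω g D hω (fun s hs => hD2 s hs) hj k
      rw [U_eq, U_eq] at hit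
      refine ⟨k + j, ?_⟩
      rw [Function.iterate_add_apply, hit.1]
      exact hk
    exact ⟨⟨hreach, ha.1⟩, ha.2⟩
  refine (measure_mono hcover).trans ((measure_union_le _ _).trans ?_)
  rw [hae, zero_add]
  exact h1

/-- the environment `n mod 2` -/
def par (x : ℤ) : Fin 6 := if x % 2 = 0 then 0 else 1

theorem par_cast (x : ℤ) : (((par x : Fin 6) : ℕ) : ℤ) = x % 2 := by
  unfold par
  split_ifs with h
  · rw [h]; rfl
  · have : x % 2 = 1 := by omega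
    rw [this]; rfl

/-- the choice `n mod 2` makes every trajectory decrease to `1` -/
theorem decreasing (n : ℤ) (hn : 1 ≤ n) : ∃ k : ℕ, (U par)^[k] n = 1 := by
  have hstep : ∀ x : ℤ, U par x = (x + x % 2) / 2 := by
    intro x
    unfold U T
    rw [par_cast]
    rw [if_pos (by omega)]
  obtain ⟨b, rfl⟩ : ∃ b : ℕ, n = b := ⟨n.toNat, by omega⟩
  induction b using Nat.strong_induction_on with
  | _ b ih =>
    rcases Nat.lt_or_ge b 2 with h | h
    · exact ⟨0, by simp only [Function.iterate_zero, id_eq]; omega⟩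
    · obtain ⟨k, hk⟩ := ih ((b + b % 2) / 2) (by omega) (by push_cast; omega)
      refine ⟨k + 1, ?_⟩
      rw [Function.iterate_succ_apply, hstep]
      push_cast at hk
      exact hk

theorem result :
    (∀ f : ℕ → ℝ, Monotone f → (∀ n, 0 < f n) → ∀ᵐ ω ∂dice, IntegralTest ω f) ∧
    (∀ᵐ ω ∂dice, Growth ω) ∧
    (∃ c : ℝ, 0 < c ∧ ∃ N₀ : ℕ, ∀ N : ℕ, N₀ ≤ N → ∀ (D : Finset ℤ) (g : ℤ → Fin 6),
      (∀ n : ℤ, 1 ≤ n → n ≤ N → n ∈ D) → (∀ n ∈ D, U g n ∈ D) →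
      (∀ n ∈ D, ∃ k : ℕ, (U g)^[k] n = 1) →
      ∀ f : ℕ → ℝ, Monotone f → (∀ n, 0 < f n) →
      dice {ω | (∀ n ∈ D, ω n = g n) ∧ ¬ (Good ω ∧ IntegralTest ω f)} ≤
        ENNReal.ofReal (Real.exp (-Real.exp (c * Real.sqrt (Real.log N)))) *
          dice {ω | ∀ n ∈ D, ω n = g n}) ∧
    (∀ f : ℕ → ℝ, Monotone f → (∀ n, 0 < f n) →
      0 < dice {ω | Good ω ∧ IntegralTest ω f}) := by
  refine ⟨test, growth, main, fun f hf hf0 => ?_⟩
  obtain ⟨c, hc, N₀, h⟩ := main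
  set D : Finset ℤ := Finset.Icc 1 (N₀ : ℤ) with hD
  have h1 := h N₀ le_rfl D par (fun n h1 h2 => Finset.mem_Icc.2 ⟨h1, h2⟩) (by
    intro n hn
    rw [hD, Finset.mem_Icc] at hn ⊢
    show 1 ≤ U par n ∧ U par n ≤ N₀
    unfold U T
    rw [par_cast, if_pos (by omega)]
    omega) (fun n hn => decreasing n (Finset.mem_Icc.1 hn).1) f hf hf0
  set A := dice {ω | ∀ n ∈ D, ω n = par n} with hA
  have hApos : 0 < A := by
    rw [hA]
    have h2 : dice {ω | ∀ n ∈ D, ω n = par n} = (((6 : ℕ) : ENNReal)⁻¹) ^ D.card :=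
      Q205.RP.cyl D par
    rw [h2]
    apply ENNReal.pow_pos
    rw [ENNReal.inv_pos]
    exact ENNReal.natCast_ne_top 6
  have hAfin : A ≠ ⊤ := by
    have : IsProbabilityMeasure dice := inferInstanceAs (IsProbabilityMeasure (Q205.RP.P 6))
    exact measure_ne_top _ _
  by_contra hcon
  have hzero : dice {ω | Good ω ∧ IntegralTest ω f} = 0 := by
    simpa using hcon
  have h2 : A ≤ dice {ω | Good ω ∧ IntegralTest ω f} +
      dice {ω | (∀ n ∈ D, ω n = par n) ∧ ¬ (Good ω ∧ IntegralTest ω f)} := by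
    refine (measure_mono ?_).trans (measure_union_le _ _)
    intro ω hω
    by_cases hl : Good ω ∧ IntegralTest ω f
    · exact Or.inl hl
    · exact Or.inr ⟨hω, hl⟩
  rw [hzero, zero_add] at h2
  have h3 : Real.exp (-Real.exp (c * Real.sqrt (Real.log N₀))) < 1 := by
    rw [Real.exp_lt_one_iff]
    linarith [Real.exp_pos (c * Real.sqrt (Real.log N₀))]
  have h4 : ENNReal.ofReal (Real.exp (-Real.exp (c * Real.sqrt (Real.log N₀)))) < 1 := by
    rw [← ENNReal.ofReal_one]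
    exact (ENNReal.ofReal_lt_ofReal_iff one_pos).2 h3
  have h5 : ENNReal.ofReal (Real.exp (-Real.exp (c * Real.sqrt (Real.log N₀)))) * A < 1 * A :=
    (ENNReal.mul_lt_mul_iff_left hApos.ne' hAfin).2 h4
  rw [one_mul] at h5
  exact absurd (h2.trans h1) (not_le.2 h5)

end Pool.Agent.Results.MP_0a5adf_nt.IntegralTestForExcursions
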