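import Pool.Agent.Q158.Col2.Prof

set_option autoImplicit false

/-!
# The trajectories of the integers of a short interval

`T n = n/2`, `(3n+1)/2`. In every interval `[N, N + L]`, `1 ≤ L ≤ N`, however short, all but
`A L ^ (1 - δ)` integers satisfy `log (T^t n) = log n - (t/2) log (4/3) + O(ε log L)` for all
`t ≤ (2 / log (4/3)) log L`, and so descend below `A N L ^ (ε - 1)`. The range of `t` and the exponent of
the descent are best possible: they fail for all the integers of the intervals `[2^M - L, 2^M)`.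

Method. Let `W = log_2 L`. Up to `t = W` this is Terras' theorem. The `T^W n` of the `n` of the interval
with a given number of odd steps lie in a window of length about `3 ^ (W / 2)`, up to `2 ^ (ε W)`, and a
value is taken at most `2 ^ W / 3 ^ (W / 2)` times, up to `2 ^ (ε W)`: the image of the counting measure
is a bounded weight on the shorter window, and one repeats the argument there. The lengths of the
windows are `L, L^κ, L^(κ²), ...` with `κ = log 3 / log 4`, the total time is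
`(1 + κ + κ² + ...) log_2 L = (2 / log (4/3)) log L`.
-/

namespace Pool.Agent.Results.MP_0a5adf_nt.ShortIntervalProfile

/-- the Collatz map with one halving per step -/
def T (n : ℕ) : ℕ := if n % 2 = 0 then n / 2 else (3 * n + 1) / 2

/-- the deviation of `log (T^t n)` from the value `log n - (t/2) log (4/3)` of the random model -/
noncomputable def dev (n t : ℕ) : ℝ :=
  |Real.log (T^[t] n : ℕ) - (Real.log n - t / 2 * Real.log (4 / 3))|

/-- For every `ε > 0`: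
(1) there are `δ, A > 0` such that for all `1 ≤ L ≤ N`, of the integers of `[N, N + L]` all but
`A L^(1-δ)` have `dev n t ≤ ε log L + A` for all `t ≤ (2 / log (4/3)) log L`, and all but `A L^(1-δ)`
have `T^t n ≤ A N L^(ε-1)` for some `t ≤ (2 / log (4/3)) log L`;
(2) for every `A`, all `L` large enough and all `M ≥ (2 / log (4/3) + ε) log L`, every integer `n` of
`[2^M - L, 2^M)` has `dev n t > (ε log (4/3) / 4) log L + A` for some `t ≤ (2 / log (4/3) + ε) log L`;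
(3) if `n` is in `[2^M - L, 2^M)` then `T^t n ≥ n / L` for all `t ≤ M`. -/
theorem result (ε : ℝ) (hε : 0 < ε) :
    (∃ δ A : ℝ, 0 < δ ∧ 0 < A ∧ ∀ N L : ℕ, 1 ≤ L → L ≤ N →
      ({n : ℕ | N ≤ n ∧ n ≤ N + L ∧ ∃ t : ℕ, (t : ℝ) ≤ 2 / Real.log (4 / 3) * Real.log L ∧
        ε * Real.log L + A < dev n t}.ncard : ℝ) ≤ A * (L : ℝ) ^ (1 - δ) ∧
      ({n : ℕ | N ≤ n ∧ n ≤ N + L ∧ ∀ t : ℕ, (t : ℝ) ≤ 2 / Real.log (4 / 3) * Real.log L →
        A * N * (L : ℝ) ^ (ε - 1) < (T^[t] n : ℕ)}.ncard : ℝ) ≤ A * (L : ℝ) ^ (1 - δ)) ∧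
    (∀ A : ℝ, ∃ L₀ : ℕ, ∀ L ≥ L₀, ∀ M : ℕ, (2 / Real.log (4 / 3) + ε) * Real.log L ≤ M →
      ∀ n : ℕ, 2 ^ M ≤ n + L → n < 2 ^ M →
      ∃ t : ℕ, (t : ℝ) ≤ (2 / Real.log (4 / 3) + ε) * Real.log L ∧
        ε * Real.log (4 / 3) / 4 * Real.log L + A < dev n t) ∧
    (∀ L M t n : ℕ, t ≤ M → 2 ^ M ≤ n + L → n < 2 ^ M → n ≤ L * T^[t] n) := by
  have hT : Pool.Agent.Q158.Col2.Tn = T := rfl
  refine ⟨?_, fun A => ?_, fun L M t n h1 h2 h3 => ?_⟩
  · obtain ⟨δ₁, A₁, a1, a2, a3⟩ := Pool.Agent.Q158.Col2.main3 ε hε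
    obtain ⟨δ₂, A₂, b1, b2, b3⟩ := Pool.Agent.Q158.Col2.descent ε hε
    rw [hT] at a3 b3
    have hm1 := le_max_left A₁ A₂
    have hm2 := le_max_right A₁ A₂
    refine ⟨min δ₁ δ₂, max A₁ A₂, lt_min a1 b1, lt_max_of_lt_left a2, fun N L hL hLN => ?_⟩
    have hLr : (1 : ℝ) ≤ L := by exact_mod_cast hL
    have hL0 : (0 : ℝ) < L := by linarith
    have p1 : (L : ℝ) ^ (1 - δ₁) ≤ (L : ℝ) ^ (1 - min δ₁ δ₂) :=
      Real.rpow_le_rpow_of_exponent_le hLr (by linarith [min_le_left δ₁ δ₂])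
    have p2 : (L : ℝ) ^ (1 - δ₂) ≤ (L : ℝ) ^ (1 - min δ₁ δ₂) :=
      Real.rpow_le_rpow_of_exponent_le hLr (by linarith [min_le_right δ₁ δ₂])
    constructor
    · refine le_trans ?_ ((a3 N L hL hLN).trans (mul_le_mul hm1 p1 (by positivity) (a2.le.trans hm1)))
      have hsub : {n : ℕ | N ≤ n ∧ n ≤ N + L ∧ ∃ t : ℕ,
          (t : ℝ) ≤ 2 / Real.log (4 / 3) * Real.log L ∧
          ε * Real.log L + max A₁ A₂ < dev n t} ⊆
          {n : ℕ | N ≤ n ∧ n ≤ N + L ∧ ¬ ∀ t : ℕ, (t : ℝ) ≤ 2 / Real.log (4 / 3) * Real.log L →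
            |Real.log (T^[t] n : ℕ) - (Real.log n - t / 2 * Real.log (4 / 3))| ≤
              ε * Real.log L + A₁} := by
        rintro n ⟨h1, h2, t, h3, h4⟩
        refine ⟨h1, h2, fun h5 => ?_⟩
        have h6 := h5 t h3
        unfold dev at h4
        linarith
      exact_mod_cast Set.ncard_le_ncard hsub
        ((Set.finite_Icc N (N + L)).subset (fun n hn => ⟨hn.1, hn.2.1⟩))
    · refine le_trans ?_ ((b3 N L hL hLN).trans (mul_le_mul hm2 p2 (by positivity) (b2.le.trans hm2)))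
      have hsub : {n : ℕ | N ≤ n ∧ n ≤ N + L ∧ ∀ t : ℕ,
          (t : ℝ) ≤ 2 / Real.log (4 / 3) * Real.log L →
          max A₁ A₂ * N * (L : ℝ) ^ (ε - 1) < (T^[t] n : ℕ)} ⊆
          {n : ℕ | N ≤ n ∧ n ≤ N + L ∧ ∀ t : ℕ, (t : ℝ) ≤ 2 / Real.log (4 / 3) * Real.log L →
            A₂ * N * (L : ℝ) ^ (ε - 1) < (T^[t] n : ℕ)} := by
        rintro n ⟨h1, h2, h3⟩
        refine ⟨h1, h2, fun t ht => lt_of_le_of_lt ?_ (h3 t ht)⟩
        have : (0 : ℝ) ≤ N * (L : ℝ) ^ (ε - 1) := by positivity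
        rw [mul_assoc, mul_assoc]
        exact mul_le_mul_of_nonneg_right hm2 this
      exact_mod_cast Set.ncard_le_ncard hsub
        ((Set.finite_Icc N (N + L)).subset (fun n hn => ⟨hn.1, hn.2.1⟩))
  · exact Pool.Agent.Q158.Col2.sharp2 ε A hε
  · exact Pool.Agent.Q158.Col2.sharp1 h1 h2 h3

end Pool.Agent.Results.MP_0a5adf_nt.ShortIntervalProfile
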