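import Pool.Agent.Q74.SP.EXL

set_option autoImplicit false

/-!
The maximum excursion is asymptotically independent of the residue and of the phases of the total
stopping time; the complete spectrum on the set of the `n` with `t(n) ≤ lam n`.
-/

namespace Pool.Agent.Results.MP_0a5adf_nt.SpectrumOfExcursions

open Finset Filter Topology MeasureTheory

/-- the accelerated `3x+1` map -/
def T (n : ℕ) : ℕ := if n % 2 = 0 then n / 2 else (3 * n + 1) / 2

/-- `t(n) ≤ c` -/
def ExcursionLE (n : ℕ) (c : ℝ) : Prop := ∀ k, (T^[k] n : ℝ) ≤ c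

/-- the trajectory of `n` contains `1` -/
def Reaches (n : ℕ) : Prop := ∃ k : ℕ, T^[k] n = 1

/-- the total stopping time -/
noncomputable def time (n : ℕ) : ℕ := sInf {k : ℕ | T^[k] n = 1}

/-- the number of odd terms among `n, T n, ..., T^(k-1) n` -/
def odds (k n : ℕ) : ℕ := ((Finset.range k).filter fun i => T^[i] n % 2 = 1).card

/-- the logarithm of the residue `2 ^ k / (3 ^ o n)`, where `k` is the total stopping time of `n` and
`o` is the number of odd terms before `1` is reached -/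
noncomputable def logRes (n : ℕ) : ℝ := time n * Real.log 2 - odds (time n) n * Real.log 3 - Real.log n

/-- `3 ^ (number of odd terms before T^k r) < lam 2 ^ k` for `1 ≤ k ≤ K`: this depends on `r` modulo
`2 ^ K` only -/
def Safe (K : ℕ) (lam : ℝ) (r : ℕ) : Prop := ∀ k, 1 ≤ k → k ≤ K → (3 : ℝ) ^ odds k r < lam * 2 ^ k

/-- `e x = exp (2 π i x)` -/
noncomputable def e (x : ℝ) : ℂ := Complex.exp (2 * Real.pi * Complex.I * x)

open Classical in
/-- the mean value of `e (β r)` over the safe residues modulo `2 ^ K` -/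
noncomputable def SafeMean (lam β : ℝ) (K : ℕ) : ℂ :=
  (∑ r ∈ (range (2 ^ K)).filter (Safe K lam), e (β * r)) / 2 ^ K

/-- `β` is a dyadic rational -/
def Dyadic (β : ℝ) : Prop := ∃ (a : ℤ) (j : ℕ), β = a / 2 ^ j

/-- equality modulo one -/
def ModOne (a b : ℝ) : Prop := ∃ m : ℤ, a = b + m

/-- the positive integers with the property `P` have the natural density `δ` -/
def HasDensity (P : ℕ → Prop) (δ : ℝ) : Prop :=
  Tendsto (fun N : ℕ => ({n : ℕ | 1 ≤ n ∧ n ≤ N ∧ P n}.ncard : ℝ) / N) atTop (𝓝 δ)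

open Classical in
/-- `1 / N` times the sum of `h (logRes n) e (θ time + φ odds + β n)` over the `n ≤ N` which reach `1`
and satisfy `t(n) ≤ lam n` -/
noncomputable def Mean (lam : ℝ) (h : ℝ → ℂ) (θ φ β : ℝ) (N : ℕ) : ℂ :=
  (∑ n ∈ (Icc 1 N).filter (fun n : ℕ => Reaches n ∧ ExcursionLE n (lam * n)),
    h (logRes n) * e (θ * time n + φ * odds (time n) n + β * n)) / N

theorem e_eq (x : ℝ) : e x = Pool.Agent.Q74.SP.e x := by
  unfold e Pool.Agent.Q74.SP.e
  congr 1
  push_cast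
  ring

theorem iter_cast (k n : ℕ) : Pool.Agent.Q74.SP.T^[k] (n : ℤ) = ((T^[k] n : ℕ) : ℤ) :=
  Pool.Agent.H499R2.ND.Td_iter_cast k n

theorem meets_iff (n : ℕ) : Pool.Agent.Q74.SP.Meets {1} (n : ℤ) ↔ Reaches n := by
  unfold Pool.Agent.Q74.SP.Meets Reaches
  refine exists_congr fun k => ?_
  rw [Finset.mem_singleton, iter_cast]
  norm_cast

theorem time_eq (n : ℕ) : Pool.Agent.Q74.SP.time {1} (n : ℤ) = time n := by
  unfold Pool.Agent.Q74.SP.time time
  congr 1
  ext k
  rw [Set.mem_ofPred_eq, Set.mem_ofPred_eq, Finset.mem_singleton, iter_cast]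
  norm_cast

theorem odds_eq (k n : ℕ) : Pool.Agent.Q74.SP.odds k (n : ℤ) = odds k n := by
  unfold Pool.Agent.Q74.SP.odds odds
  congr 1
  apply Finset.filter_congr
  intro i _
  rw [iter_cast]
  norm_cast

theorem logRes_eq (n : ℕ) : Pool.Agent.Q74.SP.lr {1} (n : ℤ) = logRes n := by
  unfold Pool.Agent.Q74.SP.lr logRes
  rw [time_eq, odds_eq, Int.cast_natCast]

theorem od_eq (k n : ℕ) : Pool.Agent.Helper894.Collatz.od k n = odds k n := by
  unfold Pool.Agent.Helper894.Collatz.od odds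
  rw [Finset.card_filter]
  apply Finset.sum_congr rfl
  intro i _
  have h1 : Pool.Agent.Helper894.Collatz.T = T := rfl
  rw [h1]
  split_ifs with h <;> omega

theorem safe_iff (K : ℕ) (lam : ℝ) (r : ℕ) : Pool.Agent.H499R2.ND.AK K lam r ↔ Safe K lam r := by
  unfold Pool.Agent.H499R2.ND.AK Safe
  refine forall_congr' fun k => forall_congr' fun _ => forall_congr' fun _ => ?_
  rw [od_eq]

theorem avg_eq (K : ℕ) (lam β : ℝ) : Pool.Agent.Q74.SP.avg K lam β = SafeMean lam β K := by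
  classical
  unfold Pool.Agent.Q74.SP.avg SafeMean
  rw [sum_filter]
  push_cast
  congr 1
  apply sum_congr rfl
  intro r _
  by_cases h : Safe K lam r
  · rw [if_pos h, if_pos ((safe_iff K lam r).2 h), e_eq]
  · rw [if_neg h, if_neg (fun h' => h ((safe_iff K lam r).1 h'))]

theorem dy_iff (β : ℝ) : Pool.Agent.Q74.SP.Dy β ↔ Dyadic β := by
  unfold Pool.Agent.Q74.SP.Dy Dyadic
  refine exists_congr fun a => exists_congr fun j => ?_
  rw [eq_div_iff (by positivity)]

theorem mean_eq (lam : ℝ) (h : ℝ → ℂ) (θ φ β : ℝ) :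
    Mean lam h θ φ β = (open Classical in Pool.Agent.Q74.SP.mean fun n =>
      if Pool.Agent.Q74.SP.Ex lam n then
        Pool.Agent.Q74.SP.GG {1} h θ φ n * Pool.Agent.Q74.SP.e (β * n) else 0) := by
  classical
  funext N
  unfold Mean Pool.Agent.Q74.SP.mean
  rw [sum_filter]
  congr 1
  apply sum_congr rfl
  intro n _
  have h0 : Pool.Agent.Q74.SP.Ex lam n ↔ ExcursionLE n (lam * n) := Iff.rfl
  beta_reduce
  by_cases hx : ExcursionLE n (lam * n)
  · rw [if_pos (h0.2 hx)]
    unfold Pool.Agent.Q74.SP.GG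
    by_cases hm : Reaches n
    · rw [if_pos ⟨hm, hx⟩, if_pos ((meets_iff n).2 hm), mul_assoc, ← Pool.Agent.Q74.SP.e_add,
        logRes_eq, time_eq, odds_eq, e_eq]
    · rw [if_neg (fun h => hm h.1), if_neg (fun h => hm ((meets_iff n).1 h)), zero_mul]
  · rw [if_neg (fun h => hx (h0.1 h)), if_neg (fun h => hx h.2)]

theorem bdd_of_reaches {n : ℕ} (h : Reaches n) : Pool.Agent.H499R2.ND.Bdd n := by
  obtain ⟨k, hk⟩ := h
  have h1 : ∀ j, Pool.Agent.H499R2.ND.Bdd (T^[j] n) → Pool.Agent.H499R2.ND.Bdd n := by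
    intro j
    induction j with
    | zero => exact fun h => h
    | succ j ih =>
      intro h
      apply ih
      rw [Pool.Agent.H499R2.ND.Bdd_inv]
      rw [Function.iterate_succ_apply'] at h
      exact h
  apply h1 k
  rw [hk]
  refine ⟨2, fun j => ?_⟩
  have h2 : ∀ j, T^[j] 1 = 1 ∨ T^[j] 1 = 2 := by
    intro j
    induction j with
    | zero => exact Or.inl rfl
    | succ j ih =>
      rw [Function.iterate_succ_apply']
      rcases ih with h | h <;> rw [h]
      · exact Or.inr rfl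
      · exact Or.inl rfl
  have h3 : Pool.Agent.H499R2.ND.Tn^[j] 1 = T^[j] 1 := rfl
  rw [h3]
  rcases h2 j with h | h <;> omega

/-- **Joint law of the maximum excursion, the residue and the phases of the total stopping time.**
There is a finite measure `ν` on `[-A, A]` without atoms, whose mass is the density of the `n` which
reach `1`, such that for every `lam ≥ 1` the limits `q(β)` of the means of `e (β r)` over the safe
residues modulo `2 ^ K` exist for all dyadic rationals `β`, `1 - 1 / lam ≤ q(0) ≤ 1`, and for all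
continuous `h` and real `θ`, `φ`, `β` the mean values of `h (logRes n) e (θ time + φ odds + β n)` over the
`n` which reach `1` and satisfy `t(n) ≤ lam n` tend to zero, unless `β` is a dyadic rational and
`(θ, φ)` is congruent modulo one to a point `(ω log 2, - ω log 3)`; in this case they are
`N ^ (2 π i ω) (q(β) ∫ h(x) e(ω x) dν / (1 + 2 π i ω) + o(1))`. In particular (`θ = φ = β = 0`) the
excursion `t(n) / n` and the residue are asymptotically independent. -/
theorem result : ∃ (ν : Measure ℝ) (A : ℝ), IsFiniteMeasure ν ∧ ν (Set.Icc (-A) A)ᶜ = 0 ∧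
    (∀ x : ℝ, ν {x} = 0) ∧ 0 < ν.real Set.univ ∧ HasDensity Reaches (ν.real Set.univ) ∧
    (∀ ω : ℝ, 2 * Real.pi * |ω| * A < 1 → ∫ x, e (ω * x) ∂ν ≠ 0) ∧
    ∀ lam : ℝ, 1 ≤ lam → ∃ q : ℝ → ℂ,
      (∀ β : ℝ, Dyadic β → Tendsto (SafeMean lam β) atTop (𝓝 (q β))) ∧
      (∃ q₀ : ℝ, q 0 = q₀ ∧ 1 - 1 / lam ≤ q₀ ∧ q₀ ≤ 1) ∧
      ∀ h : ℝ → ℂ, Continuous h → ∀ θ φ β : ℝ,
        ((Dyadic β → ∀ ω : ℝ, ¬ (ModOne θ (ω * Real.log 2) ∧ ModOne φ (-(ω * Real.log 3)))) →
          Tendsto (Mean lam h θ φ β) atTop (𝓝 0)) ∧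
        ∀ ω : ℝ, Dyadic β → ModOne θ (ω * Real.log 2) → ModOne φ (-(ω * Real.log 3)) →
          Tendsto (fun N : ℕ => e (-(ω * Real.log N)) * Mean lam h θ φ β N) atTop
            (𝓝 (q β * ((∫ x, h x * e (ω * x) ∂ν) / (1 + 2 * Real.pi * ω * Complex.I)))) := by
  classical
  have hs : (1 : ℤ) = 1 ∨ (1 : ℤ) = -1 := Or.inl rfl
  obtain ⟨ν, A, hν, hsupp, hsmall, hlaw⟩ := Pool.Agent.Q74.SP.law_cont hs {1}
  obtain ⟨A', hA'0, hA'⟩ := Pool.Agent.Q74.SP.lr_bdd {1}
  have hce : ∀ ω : ℝ, Continuous fun x => e (ω * x) := by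
    intro ω
    unfold e
    fun_prop
  obtain ⟨δ, c, -, -, -, hpos, hD, -⟩ := Pool.Agent.H499R2.LT.laws_side odd_one
    (by norm_num : ¬ (3 : ℤ) ∣ 1) hs {1}
  have hδpos : 0 < δ := hpos ⟨1, by simp, by norm_num, by norm_num⟩
  have hmass : ν.real Set.univ = δ := by
    have h1 := hlaw (fun _ => 1) continuous_const
    have h2 : (Pool.Agent.Q74.SP.mean fun n => Pool.Agent.Q74.SP.GG {1} (fun _ => 1) 0 0 ((1 : ℤ) * n))
        = fun N : ℕ => ((Pool.Agent.H499R2.ND.cnt
          (fun n : ℕ => ∃ k : ℕ, (Pool.Agent.H499R2.ND.Td 1)^[k] ((1 : ℤ) * n) ∈ ({1} : Finset ℤ)) N / N : ℝ) : ℂ) := by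
      funext N
      unfold Pool.Agent.Q74.SP.mean
      rw [Pool.Agent.H499R2.ND.cnt_eq]
      push_cast
      congr 1
      rw [Finset.card_filter]
      push_cast
      apply sum_congr rfl
      intro n _
      unfold Pool.Agent.Q74.SP.GG
      by_cases hm : Pool.Agent.Q74.SP.Meets {1} ((1 : ℤ) * n)
      · rw [if_pos hm, if_pos]
        · simp [Pool.Agent.Q74.SP.e_zero]
        · exact hm
      · rw [if_neg hm, if_neg]
        exact hm
    rw [h2, integral_const, Complex.real_smul, mul_one] at h1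
    have h3 := (Complex.continuous_ofReal.tendsto δ).comp hD
    have h4 := tendsto_nhds_unique h1 h3
    exact_mod_cast h4
  refine ⟨ν, A, hν, hsupp, ?_, by rw [hmass]; exact hδpos, ?_, ?_, ?_⟩
  · intro x
    have h1 : ν.real {x} = 0 := by
      apply le_antisymm _ measureReal_nonneg
      apply le_of_forall_pos_le_add
      intro ε hε
      obtain ⟨η, hη, h2⟩ := hsmall ε hε
      rw [zero_add]
      refine le_trans (measureReal_mono ?_) (h2 x)
      rintro _ rfl
      constructor <;> linarith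
    exact (measureReal_eq_zero_iff).1 h1
  · rw [hmass]
    refine hD.congr fun N => ?_
    congr 2
    have h6 : (fun n : ℕ => ∃ k : ℕ, (Pool.Agent.H499R2.ND.Td 1)^[k] ((1 : ℤ) * n) ∈ ({1} : Finset ℤ))
        = Reaches := by
      funext n
      rw [one_mul]
      exact propext (meets_iff n)
    rw [h6]
  · intro ω hω h00
    have hint : ∀ g : ℝ → ℂ, Continuous g → Integrable g ν := fun g hg =>
      Pool.Agent.Q74.SP.integrable_of_supp hsupp hg
    have h1 : ∫ x, (e (ω * x) - 1) ∂ν = -(ν.real Set.univ : ℂ) := by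
      rw [integral_sub (hint _ (hce ω)) (hint _ continuous_const), h00, zero_sub, integral_const,
        Complex.real_smul, mul_one]
    have h2 : ‖∫ x, (e (ω * x) - 1) ∂ν‖ ≤ (2 * Real.pi * |ω| * A) * ν.real Set.univ := by
      apply norm_integral_le_of_norm_le_const
      rw [ae_iff]
      refine measure_mono_null (t := (Set.Icc (-A) A)ᶜ) ?_ hsupp
      intro x hx hx'
      apply hx
      rw [e_eq]
      refine (Pool.Agent.Q74.SP.norm_e_sub_one_le _).trans ?_
      rw [abs_mul]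
      have h3 : |x| ≤ A := abs_le.2 hx'
      have h4 : 0 ≤ 2 * Real.pi * |ω| := by positivity
      nlinarith
    rw [h1, norm_neg, Complex.norm_real, Real.norm_eq_abs, hmass, abs_of_pos hδpos] at h2
    nlinarith
  intro lam hlam
  have hq : ∀ β : ℝ, ∃ q : ℂ, Dyadic β → Tendsto (SafeMean lam β) atTop (𝓝 q) := by
    intro β
    by_cases hβ : Dyadic β
    · obtain ⟨q, hq⟩ := Pool.Agent.Q74.SP.avg_lim ((dy_iff β).2 hβ) lam
      exact ⟨q, fun _ => hq.congr fun K => avg_eq K lam β⟩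
    · exact ⟨0, fun h => absurd h hβ⟩
  choose q hq using hq
  refine ⟨q, hq, ?_, ?_⟩
  · obtain ⟨β, -, -, -, h1⟩ := Pool.Agent.Q74.SP.exc_tail
    obtain ⟨q₀, g1, g2, g3, -⟩ := h1 lam hlam
    refine ⟨q₀, ?_, g1, g2⟩
    have h2 := hq 0 ⟨0, 0, by norm_num⟩
    have h3 := (Complex.continuous_ofReal.tendsto q₀).comp g3
    refine tendsto_nhds_unique h2 (h3.congr fun K => ?_)
    rw [← avg_eq, Pool.Agent.Q74.SP.avg_zero]
    rfl
  intro h hh θ φ β
  have hcoc := Pool.Agent.Q74.SP.coc hh hA' hs θ φ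
  have hB : ∀ n : ℕ, 1 ≤ n → Pool.Agent.Q74.SP.GG {1} h θ φ n ≠ 0 → Pool.Agent.H499R2.ND.Bdd n := by
    intro n _ hne
    apply bdd_of_reaches
    rw [← meets_iff]
    by_contra hcon
    apply hne
    unfold Pool.Agent.Q74.SP.GG
    rw [if_neg hcon]
  constructor
  · intro hres
    rw [mean_eq]
    by_cases hβ : Dyadic β
    · have h1 := Pool.Agent.Q74.SP.null hcoc (by
        rintro ω ⟨⟨l, hl⟩, ⟨m', hm'⟩⟩
        refine hres hβ ω ⟨⟨l, by linarith⟩, ⟨m', by linarith⟩⟩)
      have h2 := Pool.Agent.Q74.SP.exc_dyadic hlam hcoc hB ((dy_iff β).2 hβ)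
        ((hq β hβ).congr fun K => (avg_eq K lam β).symm)
      have h3 : Tendsto (Pool.Agent.Q74.SP.mean fun n => Pool.Agent.Q74.SP.GG {1} h θ φ n) atTop (𝓝 0) := by
        simpa only [one_mul] using h1
      have h4 := h2.add (h3.const_mul (q β))
      rw [mul_zero, add_zero] at h4
      refine h4.congr fun N => ?_
      ring
    · exact Pool.Agent.Q74.SP.exc_null hlam hcoc hB (fun h => hβ ((dy_iff β).1 h))
  · rintro ω hβ ⟨l, hl⟩ ⟨m, hm⟩
    have h1 := Pool.Agent.Q74.SP.twist (hlaw (fun x => h x * e (ω * x)) (hh.mul (hce ω))) ω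
    have h2 : (Pool.Agent.Q74.SP.mean fun n : ℕ =>
          Pool.Agent.Q74.SP.GG {1} (fun x => h x * e (ω * x)) 0 0 ((1 : ℤ) * n) *
            Pool.Agent.Q74.SP.e (ω * Real.log n))
        = Pool.Agent.Q74.SP.mean fun n : ℕ => Pool.Agent.Q74.SP.GG {1} h θ φ n := by
      apply Pool.Agent.Q74.SP.mean_congr
      intro n hn
      rw [one_mul]
      unfold Pool.Agent.Q74.SP.GG
      by_cases hmx : Pool.Agent.Q74.SP.Meets {1} (n : ℤ)
      · rw [if_pos hmx, if_pos hmx]
        simp only [zero_mul, add_zero, Pool.Agent.Q74.SP.e_zero, mul_one]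
        rw [e_eq, mul_assoc, ← Pool.Agent.Q74.SP.e_add]
        congr 1
        have h3 : θ * Pool.Agent.Q74.SP.time {1} (n : ℤ) + φ * Pool.Agent.Q74.SP.odds (Pool.Agent.Q74.SP.time {1} (n : ℤ)) (n : ℤ)
            = (ω * Pool.Agent.Q74.SP.lr {1} (n : ℤ) + ω * Real.log n)
              + ((l * Pool.Agent.Q74.SP.time {1} (n : ℤ) + m * Pool.Agent.Q74.SP.odds (Pool.Agent.Q74.SP.time {1} (n : ℤ)) (n : ℤ) : ℤ) : ℝ) := by
          unfold Pool.Agent.Q74.SP.lr
          rw [hl, hm]
          push_cast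
          ring
        rw [h3, Pool.Agent.Q74.SP.e_add _ ((_ : ℤ) : ℝ), Pool.Agent.Q74.SP.e_int, mul_one]
      · rw [if_neg hmx, if_neg hmx, zero_mul]
    rw [h2] at h1
    have h4 := Pool.Agent.Q74.SP.exc_dyadic hlam hcoc hB ((dy_iff β).2 hβ)
      ((hq β hβ).congr fun K => (avg_eq K lam β).symm)
    have h5 : Tendsto (fun N : ℕ => e (-(ω * Real.log N)) * (Mean lam h θ φ β N
        - q β * Pool.Agent.Q74.SP.mean (fun n => Pool.Agent.Q74.SP.GG {1} h θ φ n) N)) atTop (𝓝 0) := by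
      rw [tendsto_zero_iff_norm_tendsto_zero] at h4 ⊢
      refine h4.congr fun N => ?_
      rw [norm_mul, e_eq, Pool.Agent.Q74.SP.norm_e, one_mul, mean_eq]
    have h6 := h5.add (h1.const_mul (q β))
    rw [zero_add] at h6
    refine h6.congr fun N => ?_
    rw [e_eq]
    ring

end Pool.Agent.Results.MP_0a5adf_nt.SpectrumOfExcursions
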